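import Mathlib
import Pool.Agent.H322R3.CGBase
import Pool.Agent.H322R3.CGFinal

set_option autoImplicit false

namespace Pool.Agent.Results.MP_c4ee57_al.RationalAndTranscendental

open PoolH322CG

/-- There is a group `G` with two finite generating sets `S₁`, `S₂` such that the complete growth
series of `(G, S₁)` is rational and the complete growth series of `(G, S₂)` is not algebraic, that
is, transcendental. (The proof uses `G = F₆ × F₂`.) -/
theorem result : ∃ (G : Type) (_ : Group G) (S₁ S₂ : Finset G),
    Subgroup.closure (S₁ : Set G) = ⊤ ∧ Subgroup.closure (S₂ : Set G) = ⊤ ∧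
    CG S₁ ∈ RatSub (MonoidAlgebra ℤ G) ∧ ¬ IsAlg (CG S₂) :=
  ⟨GG, inferInstance, S1, S2, closure_S1, closure_S2, CG_S1_mem, not_isAlg_S2⟩

end Pool.Agent.Results.MP_c4ee57_al.RationalAndTranscendental
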